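import Pool.Agent.J6H96.CF.Stm

/-!
# Cauchy-Schwarz for sums of sets in boxes
-/

set_option autoImplicit false

namespace Pool.Agent.J6H92.CF

open Finset hiding box
open Pool.Agent.J6H96.CF

theorem card_box (r M : ℕ) : (box r M).card = M ^ r := by
  unfold box
  rw [Fintype.card_piFinset]
  simp

theorem mem_box {r M : ℕ} {v : Fin r → ℕ} : v ∈ box r M ↔ ∀ i, v i < M := by
  unfold box
  rw [Fintype.mem_piFinset]
  simp

theorem t_FEJ : S_FEJ := by
  classical
  intro r K M R hR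
  set P : Finset ((Fin r → ℕ) × (Fin r → ℕ)) := R ×ˢ box r M with hP
  set Z : Finset (Fin r → ℕ) := box r (K + M) with hZd
  have hZ : ∀ p ∈ P, p.1 + p.2 ∈ Z := by
    intro p hp
    rw [hP, mem_product] at hp
    rw [hZd, mem_box]
    intro i
    exact Nat.add_lt_add (hR p.1 hp.1 i) (mem_box.1 hp.2 i)
  let f : (Fin r → ℕ) → ℝ := fun z => ((P.filter fun p => p.1 + p.2 = z).card : ℝ)
  have hf : ∀ z, f z = ∑ p ∈ P, if p.1 + p.2 = z then (1 : ℝ) else 0 := by
    intro z
    simp only [f]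
    rw [card_filter]
    push_cast
    rfl
  have h1 : ∑ z ∈ Z, f z = P.card := by
    have h := card_eq_sum_card_fiberwise (f := fun p : (Fin r → ℕ) × (Fin r → ℕ) => p.1 + p.2)
      (s := P) (t := Z) hZ
    rw [h]
    push_cast
    rfl
  have h2 : ∑ z ∈ Z, f z ^ 2 = ∑ p ∈ P, ∑ q ∈ P, if p.1 + p.2 = q.1 + q.2 then (1 : ℝ) else 0 := by
    have h3 : ∀ z, f z ^ 2 = ∑ p ∈ P, ∑ q ∈ P, (if p.1 + p.2 = z then (1 : ℝ) else 0) *
        (if q.1 + q.2 = z then (1 : ℝ) else 0) := by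
      intro z
      rw [sq, hf, sum_mul_sum]
    rw [sum_congr rfl fun z _ => h3 z, sum_comm]
    refine sum_congr rfl fun p hp => ?_
    rw [sum_comm]
    refine sum_congr rfl fun q _ => ?_
    rw [sum_eq_single (p.1 + p.2)]
    · rw [if_pos rfl, one_mul]
      by_cases h : q.1 + q.2 = p.1 + p.2
      · rw [if_pos h, if_pos h.symm]
      · rw [if_neg h, if_neg (Ne.symm h)]
    · intro z _ hz
      rw [if_neg (Ne.symm hz), zero_mul]
    · intro h
      exact absurd (hZ p hp) h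
  have h4 : ∑ p ∈ P, ∑ q ∈ P, (if p.1 + p.2 = q.1 + q.2 then (1 : ℝ) else 0) =
      ∑ v ∈ box r M, ∑ w ∈ box r M,
        (((R ×ˢ R).filter (fun p => p.1 + v = p.2 + w)).card : ℝ) := by
    have h5 : ∀ v w : Fin r → ℕ, (((R ×ˢ R).filter (fun p => p.1 + v = p.2 + w)).card : ℝ) =
        ∑ x ∈ R, ∑ y ∈ R, if x + v = y + w then (1 : ℝ) else 0 := by
      intro v w
      rw [card_filter, sum_product]
      push_cast
      rfl
    rw [sum_congr rfl fun v _ => sum_congr rfl fun w _ => h5 v w, hP, sum_product, sum_comm]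
    refine sum_congr rfl fun v _ => ?_
    rw [sum_congr rfl fun x _ => sum_product R (box r M) _]
    rw [sum_congr rfl fun x _ => sum_comm, sum_comm]
  have h6 := sq_sum_le_card_mul_sum_sq (s := Z) (f := f)
  rw [h1, h2, h4, hZd, card_box, hP, card_product, card_box] at h6
  push_cast at h6
  calc (R.card : ℝ) ^ 2 * (M : ℝ) ^ (2 * r) = ((R.card : ℝ) * (M : ℝ) ^ r) ^ 2 := by
        rw [mul_pow, ← pow_mul, mul_comm r 2]
    _ ≤ _ := h6

end Pool.Agent.J6H92.CF
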